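import Pool.Agent.W2helper69.PS.Fin3

/-!
# Pair correlation at almost all large distances, with bandwidth up to `2`

Assume the Riemann hypothesis.  Montgomery's theorem gives the pair correlation of the zeros
against test functions of bandwidth `1`.  We show that the bandwidth can be raised to every number
below `1 + c` when the distance `u` of the pairs is only required to be typical: it may be
any number outside a small exceptional subset of an arbitrary interval of length at least `T ^ c`.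
For the zeros in a short interval of length `T ^ η` the bandwidth is every number below `η + c`.
-/

open Filter Topology Complex MeasureTheory

namespace Pool.Agent.Results.MP_103a5c_nt.AlmostAllDistances

/-- the nontrivial zeros of zeta with ordinate in `(a, b]` -/
def zeros (a b : ℝ) : Set ℂ :=
  {s : ℂ | riemannZeta s = 0 ∧ 0 < s.re ∧ s.re < 1 ∧ a < s.im ∧ s.im ≤ b}

/-- the multiplicity of `s` as a zero of zeta -/
noncomputable def mult (s : ℂ) : ℕ := analyticOrderNatAt riemannZeta s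

/-- `r` is a test function of bandwidth `μ`: the cosine transform of a continuous function
that vanishes outside `(-μ, μ)`, with `r(x) = O(x⁻²)` -/
def Test (μ : ℝ) (r : ℝ → ℝ) : Prop :=
  ∃ ψ : ℝ → ℝ, Continuous ψ ∧ (∀ x, μ ≤ |x| → ψ x = 0) ∧
    (∀ x, r x = ∫ α in (-μ)..μ, ψ α * Real.cos (2 * Real.pi * α * x)) ∧
    ∃ C : ℝ, ∀ x, |r x| * x ^ 2 ≤ C

/-- the sum of `r((γ - γ' - u) log T / 2π)` over the pairs of ordinates, counted with multiplicity,
with `γ' ∈ (t₁, t₂]` and `γ ∈ (0, 8T]` -/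
noncomputable def P (r : ℝ → ℝ) (T t₁ t₂ u : ℝ) : ℝ :=
  ∑ᶠ s' ∈ zeros t₁ t₂, ∑ᶠ s ∈ zeros 0 (8 * T),
    (mult s' : ℝ) * mult s * r ((s.im - s'.im - u) * Real.log T / (2 * Real.pi))

lemma zeros_eq (a b : ℝ) : zeros a b = H370.zset riemannZeta a b := by
  ext s
  simp only [zeros, H370.zset, Set.mem_ofPred_eq]
  tauto

/-- the sets of zeros that are summed over are finite -/
theorem zeros_finite (T : ℝ) : (zeros 0 T).Finite := by
  rw [zeros_eq]
  exact H370.zeta_zeros_finite T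

lemma sum_zeros0 {M : Type*} [AddCommMonoid M] (T : ℝ) (f : ℂ → M) :
    ∑ᶠ s ∈ zeros 0 T, f s = ∑ s ∈ W2helper69.PS.Z0 T, f s := by
  rw [zeros_eq]
  exact finsum_mem_eq_finite_toFinset_sum _ (H370.zeta_zeros_finite T)

lemma sum_zeros {M : Type*} [AddCommMonoid M] {a b : ℝ} (ha : 1 ≤ a) (f : ℂ → M) :
    ∑ᶠ s ∈ zeros a b, f s = ∑ s ∈ H370.Zf riemannZeta a b, f s := by
  rw [zeros_eq]
  have : (H370.zset riemannZeta a b).Finite := H370.zset_finite' H370.good_zeta a b (by linarith)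
  rw [finsum_mem_eq_finite_toFinset_sum _ this]
  refine Finset.sum_congr ?_ fun _ _ => rfl
  ext s
  rw [Set.Finite.mem_toFinset, H370.mem_Zf H370.good_zeta ha]

lemma P_eq {ψ : ℝ → ℝ} {μ T t₁ t₂ u : ℝ} (ht1 : 1 ≤ t₁) :
    P (H370.A2.RR ψ μ) T t₁ t₂ u = W2helper69.PS.SF ψ μ (Real.log T) T t₁ t₂ u := by
  unfold P W2helper69.PS.SF
  rw [sum_zeros ht1]
  refine Finset.sum_congr rfl fun s _ => ?_
  rw [sum_zeros0]
  rfl

lemma ratio_iff {x M B e : ℝ} (hM : 0 < M) : |x / M - B| ≤ e ↔ |x - B * M| ≤ e * M := by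
  have h : x / M - B = (x - B * M) / M := by field_simp
  rw [h, abs_div, abs_of_pos hM, div_le_iff₀ hM]

/-- **Pair correlation at almost all distances**, on the Riemann hypothesis. -/
theorem result (hRH : RiemannHypothesis) :
    ∀ η c μ ε : ℝ, 0 < η → η ≤ 1 → 0 < c → c ≤ 1 → 0 < μ → μ < η + c → 0 < ε →
      ∀ r : ℝ → ℝ, Test μ r →
      ∃ δ : ℝ, 0 < δ ∧ ∃ T₀ : ℝ, ∀ T : ℝ, T₀ ≤ T →
      ∀ t₁ t₂ : ℝ, T ≤ t₁ → t₂ ≤ 2 * T → T ^ η ≤ t₂ - t₁ →
      ∀ a b : ℝ, 0 ≤ a → b ≤ 2 * T → T ^ c ≤ b - a →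
      volume {u : ℝ | a ≤ u ∧ u ≤ b ∧
          ε < |P r T t₁ t₂ u / ((t₂ - t₁) / (2 * Real.pi) * Real.log T) - ∫ x, r x|} ≤
        ENNReal.ofReal ((b - a) * T ^ (-δ)) := by
  have hpi := Real.pi_pos
  rintro η c μ ε hη hη1 hc hc1 hμ hμg hε r ⟨ψ, hψ, hz, hr, C, hC⟩
  have hrr : r = H370.A2.RR ψ μ := funext hr
  subst hrr
  obtain ⟨δ, hδ, T0, hT0', h⟩ := W2helper69.PS.smooth_main hRH η c μ ε hη hη1 hc hc1 hμ hμg hε ψ
    hψ hz C hC
  have hint : ∫ x, H370.A2.RR ψ μ x = ψ 0 := by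
    have h1 := H370.A2.RR_inv hψ hz hC 0
    simp only [mul_zero, Real.cos_zero, mul_one] at h1
    rw [h1]
    unfold H370.A2.evp
    simp
  refine ⟨δ, hδ, T0, fun T hT t₁ t₂ ht1 ht2 hH a b ha hb hab => ?_⟩
  have hT10 : 10 ≤ T := hT0'.trans hT
  have hTpos : 0 < T := by linarith
  have hlog : 0 < Real.log T := Real.log_pos (by linarith)
  have hH0 : 0 < t₂ - t₁ := lt_of_lt_of_le (Real.rpow_pos_of_pos hTpos _) hH
  refine (measure_mono ?_).trans (h T hT t₁ t₂ ht1 ht2 hH a b ha hb hab)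
  rintro u ⟨h1, h2, h3⟩
  refine ⟨⟨h1, h2⟩, fun h4 => ?_⟩
  have hM : 0 < (t₂ - t₁) / (2 * Real.pi) * Real.log T := by positivity
  have e : (t₂ - t₁) * Real.log T / (2 * Real.pi) = (t₂ - t₁) / (2 * Real.pi) * Real.log T := by
    ring
  rw [e, ← P_eq (by linarith), ← ratio_iff hM] at h4
  rw [hint] at h3
  exact absurd (h3.trans_le h4) (lt_irrefl _)

end Pool.Agent.Results.MP_103a5c_nt.AlmostAllDistances
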