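import Pool.Agent.W2helper69.PS.Fin2

/-!
# Montgomery's `N(T; α, α + B)` for almost all `α`, under the Riemann hypothesis

Montgomery's conjecture predicts `N(T; α, α + B) ~ B (T/2π) log T` when `α` is large.  We show on
the Riemann hypothesis that for almost all `α` in an arbitrary interval of length at least `T ^ c`,
not further than `T ^ κ` from the origin, `0 < c ≤ κ < 1`, the quotient
`N(T; α, α + B) / ((T/2π) log T)` is within `1 / (1 + c) + ε` of `B`.
-/

open Filter Topology Complex MeasureTheory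

namespace Pool.Agent.Results.MP_103a5c_nt.AlmostAllWindows

/-- the nontrivial zeros of zeta with ordinate in `(a, b]` -/
def zeros (a b : ℝ) : Set ℂ :=
  {s : ℂ | riemannZeta s = 0 ∧ 0 < s.re ∧ s.re < 1 ∧ a < s.im ∧ s.im ≤ b}

/-- the multiplicity of `s` as a zero of zeta -/
noncomputable def mult (s : ℂ) : ℕ := analyticOrderNatAt riemannZeta s

/-- Montgomery's counting function `N(T; α, β)`: the number of ordered pairs `(γ, γ')` of ordinates
in `(0, T]`, counted with multiplicity, with `2πα / log T ≤ γ - γ' ≤ 2πβ / log T` -/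
noncomputable def N (T α β : ℝ) : ℕ :=
  ∑ᶠ s ∈ zeros 0 T, ∑ᶠ s' ∈ zeros 0 T,
    if 2 * Real.pi * α / Real.log T ≤ s.im - s'.im ∧ s.im - s'.im ≤ 2 * Real.pi * β / Real.log T
    then mult s * mult s' else 0

lemma zeros_eq (a b : ℝ) : zeros a b = H370.zset riemannZeta a b := by
  ext s
  simp only [zeros, H370.zset, Set.mem_ofPred_eq]
  tauto

/-- the sets of zeros that are summed over are finite -/
theorem zeros_finite (T : ℝ) : (zeros 0 T).Finite := by
  rw [zeros_eq]
  exact H370.zeta_zeros_finite T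

lemma sum_zeros0 {M : Type*} [AddCommMonoid M] (T : ℝ) (f : ℂ → M) :
    ∑ᶠ s ∈ zeros 0 T, f s = ∑ s ∈ W2helper69.PS.Z0 T, f s := by
  rw [zeros_eq]
  exact finsum_mem_eq_finite_toFinset_sum _ (H370.zeta_zeros_finite T)

lemma N_eq (T B α : ℝ) : (N T α (α + B) : ℝ) = W2helper69.PS.NC T B α := by
  unfold N W2helper69.PS.NC W2helper69.PS.KK
  rw [sum_zeros0]
  simp_rw [sum_zeros0]
  rw [Finset.sum_comm]
  push_cast
  refine Finset.sum_congr rfl fun s' _ => ?_
  rw [Finset.mul_sum, Finset.sum_filter]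
  refine Finset.sum_congr rfl fun s _ => ?_
  split_ifs
  · rw [mul_comm]; rfl
  · rfl

lemma ratio_iff {x M B e : ℝ} (hM : 0 < M) : |x / M - B| ≤ e ↔ |x - B * M| ≤ e * M := by
  have h : x / M - B = (x - B * M) / M := by field_simp
  rw [h, abs_div, abs_of_pos hM, div_le_iff₀ hM]

/-- **The pair count in almost all windows**, on the Riemann hypothesis. -/
theorem result (hRH : RiemannHypothesis) :
    ∀ c κ B ε : ℝ, 0 < c → c ≤ κ → κ < 1 → 0 < B → 0 < ε →
      ∃ δ : ℝ, 0 < δ ∧ ∃ T₀ : ℝ, ∀ T : ℝ, T₀ ≤ T →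
      ∀ a b : ℝ, 0 ≤ a → b ≤ T ^ κ → T ^ c ≤ b - a →
      volume {α : ℝ | a ≤ α ∧ α ≤ b ∧
          1 / (1 + c) + ε < |(N T α (α + B) : ℝ) / (T / (2 * Real.pi) * Real.log T) - B|} ≤
        ENNReal.ofReal ((b - a) * T ^ (-δ)) := by
  have hpi := Real.pi_pos
  intro c κ B ε hc hcκ hκ hB hε
  obtain ⟨δ, hδ, T0, h⟩ := W2helper69.PS.count_main hRH c κ B ε hc hcκ hκ hB hε
  refine ⟨δ, hδ, max T0 10, fun T hT a b ha hb hab => ?_⟩
  have hT0 : T0 ≤ T := (le_max_left _ _).trans hT
  have hT10 : 10 ≤ T := (le_max_right _ _).trans hT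
  have hlog : 0 < Real.log T := Real.log_pos (by linarith)
  refine (measure_mono ?_).trans (h T hT0 a b ha hb hab)
  rintro α ⟨h1, h2, h3⟩
  refine ⟨⟨h1, h2⟩, fun h4 => ?_⟩
  have hM : 0 < T / (2 * Real.pi) * Real.log T := by positivity
  have e : T * Real.log T / (2 * Real.pi) = T / (2 * Real.pi) * Real.log T := by ring
  rw [e, ← N_eq, ← ratio_iff hM] at h4
  exact absurd (h3.trans_le h4) (lt_irrefl _)

end Pool.Agent.Results.MP_103a5c_nt.AlmostAllWindows
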