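import Pool.Agent.W2helper22.PC.Ctl
import Pool.Agent.W2helper22.PC.LogEx

/-!
# One-sided bounds for far windows decide the pair correlation conjecture (under RH)

Assume the Riemann hypothesis.  Let `D(T; α, β)` be the difference between `N(T; α, β)`, divided by
`(T/2π) log T`, and the constant of Montgomery's conjecture.  A *condition* is a one-sided bound
`s · ∑ c_i D(T; a, a + ℓ_i) ≤ B ∏_{m < k} (β_m / a)² + o(1)` for the windows that start at a far
away point `a`; the sign `s = ±1` is fixed, and the error is small in the sense of quasi-analytic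
classes, `∑ 1 / β_m = ∞` (all the errors `exp (-c a / log a)` are allowed).  We prove that

* the conjecture is equivalent to such conditions for two incommensurable lengths, for instance to
  `D(T; a, a + 1) + D(T; a, a + √2) ≤ C exp (-c a / log a) + o(1)` for all the large `a`;
* in finite form: if `ℓ > 0` is in the group generated by the lengths of a family of conditions,
  then for each window `[α, β]` and `ε > 0` there are finitely many far windows such that, for each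
  single `T ≥ T₀`, the conditions for these windows (up to some `δ > 0`) imply
  `|D(T; α, β)| ≤ ∫_{-ℓ/2}^{ℓ/2} (1 - (sin πu / πu)²) du + ε`.
-/

set_option autoImplicit false

open Filter Topology

namespace Pool.Agent.Results.MP_103a5c_nt.FarWindows

/-- the nontrivial zeros of `ζ` with ordinate in `(0, T]` -/
def zeros (T : ℝ) : Set ℂ :=
  {s : ℂ | 0 < s.re ∧ s.re < 1 ∧ 0 < s.im ∧ s.im ≤ T ∧ riemannZeta s = 0}

/-- the multiplicity of `s` as a zero of `ζ` -/
noncomputable def mult (s : ℂ) : ℕ := analyticOrderNatAt riemannZeta s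

/-- `N(T; α, β)`: the number of ordered pairs of zeros (counted with multiplicity, the diagonal
included) with ordinates in `(0, T]` whose difference lies in `[2πα / log T, 2πβ / log T]` -/
noncomputable def N (T α β : ℝ) : ℕ :=
  ∑ᶠ s ∈ zeros T, ∑ᶠ s' ∈ {s' : ℂ | s' ∈ zeros T ∧
    2 * Real.pi * α / Real.log T ≤ s.im - s'.im ∧ s.im - s'.im ≤ 2 * Real.pi * β / Real.log T},
      mult s * mult s'

/-- the constant of the conjecture -/
noncomputable def P (α β : ℝ) : ℝ :=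
  (∫ u in α..β, (1 - (Real.sin (Real.pi * u) / (Real.pi * u)) ^ 2)) +
    if α ≤ 0 ∧ 0 ≤ β then 1 else 0

/-- `(T / 2π) log T` -/
noncomputable def X (T : ℝ) : ℝ := T / (2 * Real.pi) * Real.log T

/-- the discrepancy of the window `[α, β]` -/
noncomputable def D (T α β : ℝ) : ℝ := N T α β / X T - P α β

/-- Montgomery's pair correlation conjecture as `T → ∞` along the filter `F`; the conjecture itself
is `Montgomery atTop` -/
def Montgomery (F : Filter ℝ) : Prop := ∀ α β : ℝ, α < β →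
  Asymptotics.IsEquivalent F (fun T => (N T α β : ℝ)) (fun T => P α β * X T)

/-- a one-sided condition with `n` window lengths `ℓ i > 0`: weights `c i > 0`, a sign `s = ±1`, a
constant `B` and a nondecreasing positive sequence `β` with `∑ 1 / β m = ∞` -/
structure Cond (n : ℕ) where
  ℓ : Fin n → ℝ
  c : Fin n → ℝ
  s : ℝ
  B : ℝ
  β : ℕ → ℝ
  ℓ_pos : ∀ i, 0 < ℓ i
  c_pos : ∀ i, 0 < c i
  sign : s = 1 ∨ s = -1
  β_mono : Monotone β
  β_pos : 0 < β 0
  β_div : ¬ Summable fun m => (β m)⁻¹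

/-- the condition at the height `T`, for the windows that start at `a`, with `k` factors and up
to `δ` -/
def Cond.Holds {n : ℕ} (S : Cond n) (T a δ : ℝ) (k : ℕ) : Prop :=
  S.s * ∑ i, S.c i * D T a (a + S.ℓ i) ≤ S.B * ∏ m ∈ Finset.range k, (S.β m / a) ^ 2 + δ

/-- the length `l` is controlled along `F`: it is one of the lengths of a one-sided condition that
holds, as `T → ∞` along `F` and up to `o(1)`, for all the points `a` of a dense subset of a half
line `[A, ∞)`, and for all `k` -/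
def Controlled (F : Filter ℝ) (l : ℝ) : Prop :=
  ∃ (n : ℕ) (S : Cond n) (A : ℝ) (Q : Set ℝ), Set.Ici A ⊆ closure Q ∧
    (∀ a ∈ Q, ∀ k : ℕ, ∀ δ : ℝ, 0 < δ → ∀ᶠ T in F, S.Holds T a δ k) ∧ ∃ i, S.ℓ i = l

/-- `∫_{-l/2}^{l/2} (1 - (sin πu / πu)²) du`, which is `≤ l`, and `O(l³)` as `l → 0` -/
noncomputable def I (l : ℝ) : ℝ :=
  ∫ u in (-(l / 2))..(l / 2), (1 - (Real.sin (Real.pi * u) / (Real.pi * u)) ^ 2)

lemma D_eq (T α β : ℝ) : D T α β = Pool.Agent.Y744.G.D T α β := rfl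

lemma Mont_eq (F : Filter ℝ) : Montgomery F = Pool.Agent.Y744.G.Montgomery F := rfl

open Pool.Agent.W2helper22.PC in
lemma per_of_controlled {F : Filter ℝ} (hF : F ≤ atTop) {l : ℝ} (h : Controlled F l)
    (g : Ultrafilter ℝ) (hg : (g : Filter ℝ) ≤ F) {A' : ℝ → ℝ} {C0 : ℝ}
    (hL : Lim (1 / 2) A' C0)
    (hlim : ∀ y, Tendsto (fun T => Pool.Agent.Y744.Aa T y) (g : Filter ℝ) (𝓝 (A' y))) :
    l ∈ perG A' := by
  obtain ⟨n, S, A, Q, hQ, hyp, i, rfl⟩ := h
  exact sys_per hF S.c_pos S.ℓ_pos S.sign ⟨S.β_mono, S.β_pos, S.β_div⟩ hQ hyp g hg hL hlim i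

open Pool.Agent.W2helper22.PC in
lemma group_bound (hRH : RiemannHypothesis) {F : Filter ℝ} (hF : F ≤ atTop) {l : ℝ}
    (hl : l ∈ AddSubgroup.closure {l | Controlled F l}) (hl0 : 0 < l) {α β : ℝ} (hαβ : α < β)
    {ε : ℝ} (hε : 0 < ε) : ∀ᶠ T in F, |D T α β| ≤ I l + ε := by
  unfold I
  rw [int_eq l hl0]
  refine bound_of_per hRH hF hl0 (fun g hg A' C0 hL hlim => ?_) hαβ hε
  have h2 : AddSubgroup.closure {l | Controlled F l} ≤ perG A' := by
    rw [AddSubgroup.closure_le]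
    intro l' hl'
    exact per_of_controlled hF hl' g hg hL hlim
  exact h2 hl

lemma ctl_of_mont {F : Filter ℝ} (hF : F ≤ atTop) (h : Montgomery F) {l : ℝ} (hl : 0 < l) :
    Controlled F l := by
  refine ⟨1, ⟨fun _ => l, fun _ => 1, 1, 1, fun m => (m : ℝ) + 1, fun _ => hl, fun _ => one_pos,
    Or.inl rfl, fun i j hij => ?_, by norm_num, ?_⟩, 1, Set.Ici 1, subset_closure,
    fun a ha k δ hδ => ?_, 0, rfl⟩
  · have : (i : ℝ) ≤ j := by exact_mod_cast hij
    show (i : ℝ) + 1 ≤ j + 1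
    linarith
  · intro hs
    have h1 : Summable fun n : ℕ => (((n + 1 : ℕ) : ℝ))⁻¹ := by
      refine hs.congr fun m => ?_
      push_cast
      rfl
    exact Real.not_summable_natCast_inv ((summable_nat_add_iff 1).1 h1)
  · have h1 := Pool.Agent.W2helper22.PC.small_of_mont hF h (α := a) (β := a + l) (by linarith) hδ
    filter_upwards [h1] with T hT
    unfold Cond.Holds
    have h2 : 0 ≤ ∏ m ∈ Finset.range k, (((m : ℝ) + 1) / a) ^ 2 :=
      Finset.prod_nonneg fun m _ => sq_nonneg _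
    have h3 := (abs_le.1 hT).2
    have e : ∑ i : Fin 1, (1 : ℝ) * D T a (a + l) = D T a (a + l) := by simp
    show 1 * ∑ i : Fin 1, (1 : ℝ) * D T a (a + l) ≤
      1 * ∏ m ∈ Finset.range k, (((m : ℝ) + 1) / a) ^ 2 + δ
    rw [e, D_eq]
    linarith

/-- the errors `exp (-c a / log a)` are allowed -/
lemma log_ok (c : ℝ) (hc : 0 < c) : ∃ (B : ℝ) (β : ℕ → ℝ), 0 < B ∧ Monotone β ∧ 0 < β 0 ∧
    (¬ Summable fun m => (β m)⁻¹) ∧ ∀ a : ℝ, 0 < a → ∀ k : ℕ,
      Real.exp (-(c * a / Real.log (a + 2))) ≤ B * ∏ m ∈ Finset.range k, (β m / a) ^ 2 := by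
  obtain ⟨B, β, hB, hβ, h⟩ := Pool.Agent.W2helper22.PC.log_example hc
  exact ⟨B, β, hB, hβ.mono, hβ.pos, hβ.div, h⟩

lemma ctl_of_log {F : Filter ℝ} {A C c : ℝ} (hc : 0 < c)
    (hyp : ∀ a : ℝ, A ≤ a → ∀ δ : ℝ, 0 < δ → ∀ᶠ T in F,
      D T a (a + 1) + D T a (a + √2) ≤ C * Real.exp (-(c * a / Real.log (a + 2))) + δ) :
    ∃ l₁ l₂, Irrational (l₁ / l₂) ∧ Controlled F l₁ ∧ Controlled F l₂ := by
  obtain ⟨B, β, hB, hβ1, hβ2, hβ3, hβ⟩ := log_ok c hc
  set S : Cond 2 := ⟨![1, √2], ![1, 1], 1, |C| * B, β, fun i => by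
    fin_cases i
    · exact one_pos
    · show 0 < √2
      positivity, fun i => by
    fin_cases i
    · exact one_pos
    · exact one_pos, Or.inl rfl, hβ1, hβ2, hβ3⟩ with hS
  have hS1 : S.ℓ 0 = 1 := rfl
  have hS2 : S.ℓ 1 = √2 := rfl
  have hh : ∀ a ∈ Set.Ici (max A 1), ∀ k : ℕ, ∀ δ : ℝ, 0 < δ → ∀ᶠ T in F,
      S.Holds T a δ k := by
    intro a ha k δ hδ
    have ha1 : max A 1 ≤ a := ha
    have ha2 : 0 < a := by
      have := (le_max_right A 1).trans ha1
      linarith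
    filter_upwards [hyp a ((le_max_left A 1).trans ha1) δ hδ] with T hT
    show 1 * ∑ i : Fin 2, (![1, 1] : Fin 2 → ℝ) i *
      D T a (a + (![1, √2] : Fin 2 → ℝ) i) ≤
        |C| * B * ∏ m ∈ Finset.range k, (β m / a) ^ 2 + δ
    rw [Fin.sum_univ_two]
    show 1 * (1 * D T a (a + 1) + 1 * D T a (a + √2)) ≤ _
    have h1 := hβ a ha2 k
    have h2 := mul_le_mul_of_nonneg_left h1 (abs_nonneg C)
    have h3 : C * Real.exp (-(c * a / Real.log (a + 2))) ≤
        |C| * Real.exp (-(c * a / Real.log (a + 2))) :=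
      mul_le_mul_of_nonneg_right (le_abs_self C) (Real.exp_pos _).le
    rw [← mul_assoc] at h2
    linarith
  exact ⟨√2, 1, by
      rw [div_one]
      exact irrational_sqrt_two,
      ⟨2, S, max A 1, Set.Ici (max A 1), subset_closure, hh, 1, hS2⟩,
      ⟨2, S, max A 1, Set.Ici (max A 1), subset_closure, hh, 0, hS1⟩⟩

open Pool.Agent.W2helper22.PC in
lemma tfae (hRH : RiemannHypothesis) {F : Filter ℝ} (hF : F ≤ atTop) : List.TFAE
    [Montgomery F,
      ∃ A C c : ℝ, 0 < c ∧ ∀ a : ℝ, A ≤ a → ∀ δ : ℝ, 0 < δ → ∀ᶠ T in F,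
        D T a (a + 1) + D T a (a + √2) ≤ C * Real.exp (-(c * a / Real.log (a + 2))) + δ,
      ∀ l, 0 < l → Controlled F l,
      ∃ l₁ l₂, Irrational (l₁ / l₂) ∧ Controlled F l₁ ∧ Controlled F l₂,
      Dense ((AddSubgroup.closure {l | Controlled F l} : AddSubgroup ℝ) : Set ℝ)] := by
  tfae_have 1 → 2 := by
    intro h
    refine ⟨1, 0, 1, one_pos, fun a ha δ hδ => ?_⟩
    have h1 := small_of_mont hF h (α := a) (β := a + 1) (by linarith) (half_pos hδ)
    have h2 := small_of_mont hF h (α := a) (β := a + √2) (by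
      have : 0 < √2 := by positivity
      linarith) (half_pos hδ)
    filter_upwards [h1, h2] with T hT1 hT2
    rw [D_eq, D_eq, zero_mul]
    linarith [(abs_le.1 hT1).2, (abs_le.1 hT2).2]
  tfae_have 2 → 4 := by
    rintro ⟨A, C, c, hc, h⟩
    exact ctl_of_log hc h
  tfae_have 1 → 3 := fun h l hl => ctl_of_mont hF h hl
  tfae_have 3 → 4 := fun h => ⟨√2, 1, by
    rw [div_one]
    exact irrational_sqrt_two, h _ (by positivity), h _ one_pos⟩
  tfae_have 4 → 5 := by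
    rintro ⟨l₁, l₂, hirr, h1, h2⟩
    refine (dense_addSubgroupClosure_pair_iff.2 hirr).mono ?_
    show ((AddSubgroup.closure {l₁, l₂} : AddSubgroup ℝ) : Set ℝ) ⊆ _
    rw [SetLike.coe_subset_coe]
    refine AddSubgroup.closure_mono ?_
    rintro y (rfl | rfl)
    · exact h1
    · exact h2
  tfae_have 5 → 1 := by
    intro h
    refine mont_of_small hF fun α β hαβ ε hε => ?_
    refine small_of_dense h (fun l hl hl0 α β hαβ ε hε => ?_) hαβ hε
    have := group_bound hRH hF hl hl0 hαβ hε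
    unfold I at this
    rw [int_eq l hl0] at this
    exact this
  tfae_finish

open Pool.Agent.W2helper22.PC in
lemma family (hRH : RiemannHypothesis) {ι : Type} (n : ι → ℕ) (S : (r : ι) → Cond (n r))
    (A : ι → ℝ) (Q : ι → Set ℝ) (hQ : ∀ r, Set.Ici (A r) ⊆ closure (Q r)) {l : ℝ}
    (hl : l ∈ AddSubgroup.closure (⋃ r, Set.range (S r).ℓ)) (hl0 : 0 < l) {α β : ℝ}
    (hαβ : α < β) {ε : ℝ} (hε : 0 < ε) :
    ∃ (𝒜 : Finset (ι × ℝ)) (K : ℕ) (δ T₀ : ℝ), (∀ x ∈ 𝒜, x.2 ∈ Q x.1) ∧ 0 < δ ∧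
      ∀ T, T₀ ≤ T → (∀ x ∈ 𝒜, ∀ k ≤ K, (S x.1).Holds T x.2 δ k) → |D T α β| ≤ I l + ε := by
  classical
  by_contra hcon
  push Not at hcon
  have hex : ∀ i : Finset {x : ι × ℝ // x.2 ∈ Q x.1} × ℕ, ∃ T : ℝ, (i.2 : ℝ) ≤ T ∧
      (∀ x ∈ i.1, ∀ k ≤ i.2, (S x.1.1).Holds T x.1.2 (1 / ((i.2 : ℝ) + 1)) k) ∧
      I l + ε < |D T α β| := by
    rintro ⟨𝒜, N⟩
    obtain ⟨T, hT1, hT2, hT3⟩ := hcon (𝒜.image Subtype.val) N (1 / ((N : ℝ) + 1)) N
      (fun x hx => by
        obtain ⟨y, _, rfl⟩ := Finset.mem_image.1 hx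
        exact y.2) (by positivity)
    exact ⟨T, hT1, fun x hx k hk => hT2 x.1 (Finset.mem_image.2 ⟨x, hx, rfl⟩) k hk, hT3⟩
  choose t ht1 ht2 ht3 using hex
  have htt : Tendsto t atTop atTop := by
    refine tendsto_atTop_mono ht1 (tendsto_natCast_atTop_atTop.comp ?_)
    rw [← prod_atTop_atTop_eq]
    exact tendsto_snd
  have hF : map t atTop ≤ (atTop : Filter ℝ) := htt
  have hyp : ∀ r, ∀ a ∈ Q r, ∀ k : ℕ, ∀ δ, 0 < δ → ∀ᶠ T in map t atTop, (S r).Holds T a δ k := by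
    intro r a ha k δ hδ
    rw [eventually_map]
    obtain ⟨N, hN⟩ := exists_nat_one_div_lt hδ
    filter_upwards [eventually_ge_atTop (({⟨(r, a), ha⟩} : Finset {x : ι × ℝ // x.2 ∈ Q x.1}),
      max N k)] with i hi
    have h1 : (⟨(r, a), ha⟩ : {x : ι × ℝ // x.2 ∈ Q x.1}) ∈ i.1 :=
      hi.1 (Finset.mem_singleton_self _)
    have h2 : max N k ≤ i.2 := hi.2
    have h3 := ht2 i _ h1 k ((le_max_right N k).trans h2)
    have h4 : (N : ℝ) ≤ i.2 := by exact_mod_cast (le_max_left N k).trans h2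
    have h5 : 1 / ((i.2 : ℝ) + 1) ≤ 1 / ((N : ℝ) + 1) :=
      one_div_le_one_div_of_le (by positivity) (by linarith)
    unfold Cond.Holds at h3 ⊢
    linarith
  have h1 : ∀ᶠ T in map t atTop, |D T α β| ≤ I l + ε := by
    unfold I
    rw [int_eq l hl0]
    refine bound_of_per hRH hF hl0 (fun g hg A' C0 hL hlim => ?_) hαβ hε
    have h2 : AddSubgroup.closure (⋃ r, Set.range (S r).ℓ) ≤ perG A' := by
      rw [AddSubgroup.closure_le]
      intro y hy
      obtain ⟨r, i, rfl⟩ := Set.mem_iUnion.1 hy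
      exact sys_per hF (S r).c_pos (S r).ℓ_pos (S r).sign
        ⟨(S r).β_mono, (S r).β_pos, (S r).β_div⟩ (hQ r) (hyp r) g hg hL hlim i
    exact h2 hl
  rw [eventually_map] at h1
  obtain ⟨i, hi⟩ := h1.exists
  have := ht3 i
  linarith

/-- **One-sided bounds for far windows decide the pair correlation conjecture**, on the Riemann
hypothesis: the criterion, and its finite form. -/
theorem result (hRH : RiemannHypothesis) :
    (∀ F : Filter ℝ, F ≤ atTop → List.TFAE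
      [Montgomery F,
        ∃ A C c : ℝ, 0 < c ∧ ∀ a : ℝ, A ≤ a → ∀ δ : ℝ, 0 < δ → ∀ᶠ T in F,
          D T a (a + 1) + D T a (a + √2) ≤ C * Real.exp (-(c * a / Real.log (a + 2))) + δ,
        ∀ l, 0 < l → Controlled F l,
        ∃ l₁ l₂, Irrational (l₁ / l₂) ∧ Controlled F l₁ ∧ Controlled F l₂,
        Dense ((AddSubgroup.closure {l | Controlled F l} : AddSubgroup ℝ) : Set ℝ)]) ∧
    (∀ (ι : Type) (n : ι → ℕ) (S : (r : ι) → Cond (n r)) (A : ι → ℝ) (Q : ι → Set ℝ),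
      (∀ r, Set.Ici (A r) ⊆ closure (Q r)) →
      ∀ l ∈ AddSubgroup.closure (⋃ r, Set.range (S r).ℓ), 0 < l →
      ∀ α β : ℝ, α < β → ∀ ε : ℝ, 0 < ε →
        ∃ (𝒜 : Finset (ι × ℝ)) (K : ℕ) (δ T₀ : ℝ), (∀ x ∈ 𝒜, x.2 ∈ Q x.1) ∧ 0 < δ ∧
          ∀ T, T₀ ≤ T → (∀ x ∈ 𝒜, ∀ k ≤ K, (S x.1).Holds T x.2 δ k) → |D T α β| ≤ I l + ε) :=
  ⟨fun _ hF => tfae hRH hF, fun _ n S A Q hQ _ hl hl0 _ _ hαβ _ hε =>
    family hRH n S A Q hQ hl hl0 hαβ hε⟩

end Pool.Agent.Results.MP_103a5c_nt.FarWindows
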