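import Pool.Agent.W2helper22.UB.Fin4

/-!
# One-sided bounds for the averages of `F(α, T)` over windows of one length

Assume the Riemann hypothesis.  Goldston (1988) showed that Montgomery's pair correlation
conjecture is equivalent to the asymptotic formulas `∫_a^b F(α, T) dα → M(a, b)` for all `a < b`,
`a, b ≠ 0`, where `M(a, b) = ∫_a^b min(|α|, 1) dα + 1_{a < 0 < b}`.  We show that much less is enough.
Fix *one* length `ℓ > 0`, as long as one wants.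

* The *upper bounds* `∫_a^{a + ℓ} F(α, T) dα ≤ M(a, a + ℓ) + o(1)` for a dense set of points `a` are
  equivalent to the conjecture.
* The *lower bounds* `∫_a^{a + ℓ} F(α, T) dα ≥ M(a, a + ℓ) - o(1)`, together with a weak repulsion of
  the zeros (`N(T; -y, y) ≤ (1 + o(y)) (T/2π) log T` as `y → 0+`), are equivalent to the conjecture.
* The upper bounds have a finite form: finitely many of them, up to some `δ > 0`, at a single
  height `T ≥ T₀`, give the conjecture for a given window up to `ε` at the same height.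
* In particular the upper half `F(α, T) ≤ 1 + o(1)` (in the mean, `α ≥ c`, `c < 1`) of Montgomery's
  conjecture on `F` implies the pair correlation conjecture.

Idea of the proof: in a limit along an ultrafilter let `G` be the difference between the primitives
of `F` and of the prediction.  `G` is odd, it vanishes on `(-1, 1)` (Montgomery's theorem), and
`∫_0^A G ≥ -1/6` since the diagonal pairs contribute at least `A²/2` to the corresponding Fejér sum.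
If `G(a + ℓ) ≤ G(a)` for all `a` this forces `G` to be `ℓ`-periodic.  Then the discrepancy of the pair
measure is carried by `ℓ⁻¹ℤ`, hence it is a *positive* measure, and its Fourier transform, being
positive definite and zero near `0`, vanishes.
-/

set_option autoImplicit false

open Filter Topology Complex

namespace Pool.Agent.Results.MP_103a5c_nt.OneSidedAverages

/-- the nontrivial zeros of `ζ` with ordinate in `(0, T]` -/
def zeros (T : ℝ) : Set ℂ :=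
  {s : ℂ | 0 < s.re ∧ s.re < 1 ∧ 0 < s.im ∧ s.im ≤ T ∧ riemannZeta s = 0}

/-- the multiplicity of `s` as a zero of `ζ` -/
noncomputable def mult (s : ℂ) : ℕ := analyticOrderNatAt riemannZeta s

/-- `N(T; α, β)`: the number of ordered pairs of zeros (counted with multiplicity, the diagonal
included) with ordinates in `(0, T]` whose difference lies in `[2πα / log T, 2πβ / log T]` -/
noncomputable def N (T α β : ℝ) : ℕ :=
  ∑ᶠ s ∈ zeros T, ∑ᶠ s' ∈ {s' : ℂ | s' ∈ zeros T ∧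
    2 * Real.pi * α / Real.log T ≤ s.im - s'.im ∧ s.im - s'.im ≤ 2 * Real.pi * β / Real.log T},
      mult s * mult s'

/-- the constant of the conjecture -/
noncomputable def P (α β : ℝ) : ℝ :=
  (∫ u in α..β, (1 - (Real.sin (Real.pi * u) / (Real.pi * u)) ^ 2)) +
    if α ≤ 0 ∧ 0 ≤ β then 1 else 0

/-- `(T / 2π) log T` -/
noncomputable def X (T : ℝ) : ℝ := T / (2 * Real.pi) * Real.log T

/-- the discrepancy of the window `[α, β]` -/
noncomputable def D (T α β : ℝ) : ℝ := N T α β / X T - P α β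

/-- Montgomery's pair correlation conjecture as `T → ∞` along the filter `𝓕`; the conjecture itself
is `Montgomery atTop` -/
def Montgomery (𝓕 : Filter ℝ) : Prop := ∀ α β : ℝ, α < β →
  Asymptotics.IsEquivalent 𝓕 (fun T => (N T α β : ℝ)) (fun T => P α β * X T)

/-- Montgomery's function `F(α, T)`:
`((T/2π) log T)⁻¹ ∑_γ ∑_γ' T ^ (iα(γ - γ')) w(γ - γ')`, `w(u) = 4 / (4 + u²)`, the zeros being counted
with multiplicity -/
noncomputable def F (α T : ℝ) : ℂ :=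
  ((T / (2 * Real.pi) * Real.log T : ℝ) : ℂ)⁻¹ *
    ∑ᶠ s ∈ zeros T, ∑ᶠ s' ∈ zeros T, (mult s : ℂ) * (mult s' : ℂ) *
      ((T : ℂ) ^ (I * α * ((s.im - s'.im : ℝ) : ℂ)) * (4 / (4 + ((s.im - s'.im : ℝ) : ℂ) ^ 2)))

/-- `∫_a^b F(α, T) dα` (`F` being real on the Riemann hypothesis) -/
noncomputable def J (T a b : ℝ) : ℝ := ∫ α in a..b, (F α T).re

/-- the predicted limit of `∫_a^b F(α, T) dα` for `a < b`, `a, b ≠ 0` -/
noncomputable def M (a b : ℝ) : ℝ := (∫ α in a..b, min |α| 1) + if a < 0 ∧ 0 < b then 1 else 0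

/-- the excess `∫_c^A max(F(α, T) - 1, 0) dα` -/
noncomputable def Ex (T c A : ℝ) : ℝ := ∫ α in c..A, max ((F α T).re - 1) 0

/-- weak repulsion: `N(T; -y, y) ≤ (1 + o(y)) (T / 2π) log T` as `y → 0+`, for `T` large in terms
of `y` -/
def WeakRepulsion (𝓕 : Filter ℝ) : Prop := ∀ ε : ℝ, 0 < ε → ∃ y₀ : ℝ, 0 < y₀ ∧
  ∀ y : ℝ, 0 < y → y < y₀ → ∀ᶠ T in 𝓕, (N T (-y) y : ℝ) ≤ (1 + ε * y) * X T

lemma D_eq (T α β : ℝ) : D T α β = Pool.Agent.Y744.G.D T α β := rfl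

lemma Mont_eq (𝓕 : Filter ℝ) : Montgomery 𝓕 = Pool.Agent.Y744.G.Montgomery 𝓕 := rfl

lemma J_eq (T a b : ℝ) : J T a b = Pool.Agent.W2helper22.UB.J T a b := rfl

lemma M_eq (a b : ℝ) : M a b = Pool.Agent.W2helper22.UB.M a b := rfl

lemma Ex_eq (T c A : ℝ) : Ex T c A = Pool.Agent.W2helper22.UB.Ex T c A := rfl

lemma WR_eq (𝓕 : Filter ℝ) : WeakRepulsion 𝓕 = Pool.Agent.W2helper22.UB.WR 𝓕 := rfl

open Pool.Agent.W2helper22.UB in
lemma tfae (hRH : RiemannHypothesis) {ℓ : ℝ} (hℓ : 0 < ℓ) {Q : Set ℝ} (hQ : Dense Q)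
    {𝓕 : Filter ℝ} (hF : 𝓕 ≤ atTop) :
    List.TFAE
      [Montgomery 𝓕,
        ∀ a ∈ Q, a ≠ 0 → a + ℓ ≠ 0 → ∀ δ : ℝ, 0 < δ → ∀ᶠ T in 𝓕,
          J T a (a + ℓ) ≤ M a (a + ℓ) + δ,
        (∀ a ∈ Q, a ≠ 0 → a + ℓ ≠ 0 → ∀ δ : ℝ, 0 < δ → ∀ᶠ T in 𝓕,
          M a (a + ℓ) - δ ≤ J T a (a + ℓ)) ∧ WeakRepulsion 𝓕,
        ∀ a b : ℝ, a < b → a ≠ 0 → b ≠ 0 → Tendsto (fun T => J T a b) 𝓕 (𝓝 (M a b))] := by
  tfae_have 1 → 4 := fun hM a b hab ha hb => all_windows hRH hF hM hab ha hb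
  tfae_have 4 → 2 := by
    intro h3 a _ ha hal δ hδ
    have h4 := h3 a (a + ℓ) (by linarith) ha hal
    exact ((tendsto_order.1 h4).2 (M a (a + ℓ) + δ) (by linarith)).mono fun T hT => le_of_lt hT
  tfae_have 2 → 1 := fun h2 => mont_of_upper hRH hF hQ hℓ h2
  tfae_have 1 → 3 := by
    intro hM
    refine ⟨fun a _ ha hal δ hδ => ?_, WR_of_Mont hF hM⟩
    have h4 := all_windows hRH hF hM (show a < a + ℓ by linarith) ha hal
    exact ((tendsto_order.1 h4).1 (M a (a + ℓ) - δ) (by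
      rw [M_eq]
      linarith)).mono fun T hT => le_of_lt hT
  tfae_have 3 → 1 := fun h3 => mont_of_lower hRH hF hQ hℓ h3.1 h3.2
  tfae_finish

/-- **One-sided bounds for the averages of Montgomery's function over windows of a single length
decide the pair correlation conjecture**, on the Riemann hypothesis. -/
theorem result (hRH : RiemannHypothesis) :
    (∀ (ℓ : ℝ) (Q : Set ℝ), 0 < ℓ → Dense Q →
      (∀ 𝓕 : Filter ℝ, 𝓕 ≤ atTop → List.TFAE
        [Montgomery 𝓕,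
          ∀ a ∈ Q, a ≠ 0 → a + ℓ ≠ 0 → ∀ δ : ℝ, 0 < δ → ∀ᶠ T in 𝓕,
            J T a (a + ℓ) ≤ M a (a + ℓ) + δ,
          (∀ a ∈ Q, a ≠ 0 → a + ℓ ≠ 0 → ∀ δ : ℝ, 0 < δ → ∀ᶠ T in 𝓕,
            M a (a + ℓ) - δ ≤ J T a (a + ℓ)) ∧ WeakRepulsion 𝓕,
          ∀ a b : ℝ, a < b → a ≠ 0 → b ≠ 0 → Tendsto (fun T => J T a b) 𝓕 (𝓝 (M a b))]) ∧
      (∀ α β a b ε : ℝ, α < β → a < b → a ≠ 0 → b ≠ 0 → 0 < ε →
        ∃ (𝒜 : Finset ℝ) (δ T₀ : ℝ), (∀ s ∈ 𝒜, s ∈ Q ∧ s ≠ 0 ∧ s + ℓ ≠ 0) ∧ 0 < δ ∧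
          ∀ T, T₀ ≤ T → (∀ s ∈ 𝒜, J T s (s + ℓ) ≤ M s (s + ℓ) + δ) →
            |D T α β| ≤ ε ∧ |J T a b - M a b| ≤ ε)) ∧
    (∀ c α β ε : ℝ, 0 < c → c < 1 → α < β → 0 < ε → ∃ A δ T₀ : ℝ, 0 < δ ∧
      ∀ T, T₀ ≤ T → Ex T c A ≤ δ → |D T α β| ≤ ε) := by
  refine ⟨fun ℓ Q hℓ hQ => ⟨fun 𝓕 hF => tfae hRH hℓ hQ hF,
    fun α β a b ε hαβ hab ha hb hε => ?_⟩, fun c α β ε hc0 hc hαβ hε => ?_⟩
  · exact Pool.Agent.W2helper22.UB.finite_upper hRH hQ hℓ
      (R := fun T => |D T α β| ≤ ε ∧ |J T a b - M a b| ≤ ε)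
      (Pool.Agent.W2helper22.UB.R_ok hRH hαβ hab ha hb hε)
  · exact Pool.Agent.W2helper22.UB.finite_excess hRH hc0 hc (R := fun T => |D T α β| ≤ ε)
      fun 𝓕 hF hM => Pool.Agent.W2helper22.PC.small_of_mont hF hM hαβ hε

end Pool.Agent.Results.MP_103a5c_nt.OneSidedAverages
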